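import Pool.Agent.Helper61.QS.GoalsH
import Pool.Agent.Helper97.RF.LODEcore

/-!
# Project QS (MP_0ebdb3_gt), packet OD1: existence for linear equations
-/

set_option autoImplicit false

open Pool.Agent.Helper61.QS

namespace Pool.Agent.Helper89.QS

/-- Packet H-OD1. -/
theorem goalOD1 : G_OD1 := by
  intro n c hc
  obtain ⟨U, h0, hU⟩ := Pool.Agent.Helper97.RF.lode_global
    (fun t => ContinuousLinearMap.mul ℝ (En n) (c t))
    ((ContinuousLinearMap.mul ℝ (En n)).continuous.comp hc) 1
  exact ⟨U, h0, hU⟩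

end Pool.Agent.Helper89.QS
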